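import Mathlib
import Pool.Agent.MP_2a197d_al.KE
import Pool.Agent.MP_2a197d_al.S1
import Pool.Agent.MP_2a197d_al.FW3

open Pool.Agent.MP_2a197d_al

/-- Every Magnus variety of groups other than the variety of all groups is solvable.
The variety is the class of groups satisfying the laws in `W`; `hW` says that some group is not
in it; `hM` says that every group of the variety that is free in the variety on a sequence of
generators is a Magnus group: its lower central series has trivial intersection and torsion-free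
factors. The conclusion bounds the derived length of all groups of the variety. -/
theorem Pool.Agent.Results.MP_2a197d_al.Solvable.result (W : Set (FreeGroup ℕ))
    (hW : ∃ (G : Type) (_ : Group G), ¬ ∀ w ∈ W, ∀ f : FreeGroup ℕ →* G, f w = 1)
    (hM : ∀ (F : Type) [Group F] (x : ℕ → F), (∀ w ∈ W, ∀ f : FreeGroup ℕ →* F, f w = 1) →
      (∀ (G : Type) [Group G], (∀ w ∈ W, ∀ f : FreeGroup ℕ →* G, f w = 1) →
        ∀ g : ℕ → G, ∃! φ : F →* G, ∀ i, φ (x i) = g i) →
      (⨅ s, (⊤ : Subgroup F).lowerCentralSeries s) = ⊥ ∧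
      ∀ s, ∀ g ∈ (⊤ : Subgroup F).lowerCentralSeries s, ∀ k : ℕ, k ≠ 0 →
        g ^ k ∈ (⊤ : Subgroup F).lowerCentralSeries (s + 1) →
        g ∈ (⊤ : Subgroup F).lowerCentralSeries (s + 1)) :
    ∃ M : ℕ, ∀ (G : Type*) [Group G], (∀ w ∈ W, ∀ f : FreeGroup ℕ →* G, f w = 1) →
      derivedSeries G M = ⊥ := by
  refine FW.final (FW.thm K5.key (fun _ w _ _ _ G h => S1.step w G h) ℕ) W ?_
    fun F _ x h1 h2 => FW.magnus (hM F x h1 h2).1 (hM F x h1 h2).2
  obtain ⟨G, _, h⟩ := hW
  by_contra hc
  push Not at hc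
  exact h fun w hw f => by rw [hc w hw, map_one]
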